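import Pool.Agent.Lib.MP_d0f9e0_co.Gap.AngleForced
import Pool.Agent.Lib.MP_d0f9e0_co.Gap.RankCritD
import Pool.Agent.Lib.MP_d0f9e0_co.Gap.LinearRank
import Pool.Agent.Lib.MP_d0f9e0_co.K2.EtfMain
import Pool.Agent.Lib.MP_d0f9e0_co.K2.Real2
import Pool.Agent.Lib.MP_d0f9e0_co.Gap.Other

set_option autoImplicit false

open Matrix

namespace Pool.Agent.Results.MP_d0f9e0_co.AngleGap

/-- `x` is a family of unit vectors of `ℂ^d` whose inner products for distinct indices all have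
modulus `c`. -/
def Equi (d : ℕ) (c : ℝ) {J : Type} (x : J → EuclideanSpace ℂ (Fin d)) : Prop :=
  (∀ i, ‖x i‖ = 1) ∧ ∀ i j, i ≠ j → ‖inner ℂ (x i) (x j)‖ = c

/-- The modulus of the inner products of a maximal ETF of `ℂ^d`. -/
noncomputable def maxAngle (d : ℕ) : ℝ := 1 / Real.sqrt ((d : ℝ) + 1)

/-- The rank of `d - ∑ v_i v_i^*`. -/
noncomputable def defectRank (d N : ℕ) (v : Fin N → EuclideanSpace ℂ (Fin d)) : ℕ :=
  ((d : ℂ) • (1 : Matrix (Fin d) (Fin d) ℂ) -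
    ∑ i, Matrix.vecMulVec (v i).ofLp (star (v i).ofLp)).rank

/-- `w` is a maximal ETF of `ℂ^d`, and `v` is its part indexed by the range of `f`. -/
def Completes (d N : ℕ) (v : Fin N → EuclideanSpace ℂ (Fin d))
    (w : Fin (d ^ 2) → EuclideanSpace ℂ (Fin d)) (f : Fin N ↪ Fin (d ^ 2)) : Prop :=
  Equi d (maxAngle d) w ∧ ∀ i, w (f i) = v i

/-- Every unit vector whose inner products with all `v i` have modulus `1/√(d+1)` is a multiple
of a member of `w` whose index is not in the range of `f`. -/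
def Determined (d N : ℕ) (v : Fin N → EuclideanSpace ℂ (Fin d))
    (w : Fin (d ^ 2) → EuclideanSpace ℂ (Fin d)) (f : Fin N ↪ Fin (d ^ 2)) : Prop :=
  ∀ u : EuclideanSpace ℂ (Fin d), ‖u‖ = 1 → (∀ i, ‖inner ℂ (v i) u‖ = maxAngle d) →
    ∃ j, j ∉ Set.range f ∧ ∃ z : ℂ, u = z • w j

/-- `v` can be extended by `k` further vectors, all inner products having modulus `1/√(d+1)`. -/
def Extends (d N k : ℕ) (v : Fin N → EuclideanSpace ℂ (Fin d)) : Prop :=
  ∃ w : Fin (N + k) → EuclideanSpace ℂ (Fin d), Equi d (maxAngle d) w ∧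
    ∀ i, w (Fin.castAdd k i) = v i

/-- There are `N` unit vectors of `ℂ^d` whose inner products for distinct indices all have the
same modulus `c < 1`, with `c ≠ 1/√(d+1)`. -/
def OtherAngle (d N : ℕ) : Prop :=
  ∃ (c : ℝ) (v : Fin N → EuclideanSpace ℂ (Fin d)), c < 1 ∧ c ≠ maxAngle d ∧ Equi d c v

private theorem main : ∀ (d N : ℕ) (c : ℝ) (v : Fin N → EuclideanSpace ℂ (Fin d)),
    1 ≤ d → c < 1 → Equi d c v →
    ((d : ℝ) ^ 2 - (Real.sqrt ((d : ℝ) + 1) - 1) ^ 2 < N → (c = maxAngle d ∨ 2 ≤ d) →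
      c = maxAngle d ∧ ∃ w f, Completes d N v w f ∧ Determined d N v w f) ∧
    (c = maxAngle d →
      N + defectRank d N v ≤ d ^ 2 ∧
      ((d : ℝ) ^ 2 - N - defectRank d N v <
        (Real.sqrt ((d : ℝ) + 1) - 1) * (Real.sqrt ((d : ℝ) + 1) - 2) / 2 →
        ∃ w f, Completes d N v w f) ∧
      (∀ k : ℕ, N + k + 3 * d ^ 2 ≤ 4 * (N + defectRank d N v) → Extends d N k v) ∧
      ((d : ℝ) ^ 2 - 1 - Real.sqrt ((d : ℝ) + 1) < N → N + defectRank d N v = d ^ 2) ∧
      (N + defectRank d N v = d ^ 2 ↔ ∃ w f, Completes d N v w f ∧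
        LinearIndependent ℂ (fun j : {j // j ∉ Set.range f} => w j)) ∧
      ∀ w f, Completes d N v w f →
        (d ^ 2 < N + d ∨ LinearIndependent ℂ (fun j : {j // j ∉ Set.range f} => w j)) →
        Determined d N v w f) ∧
    (2 ≤ N → c ≠ maxAngle d → N + d ≤ d ^ 2 + 1) := by
  rintro d N c v hd hc ⟨hv1, hv2⟩
  have hin : ∀ a b : EuclideanSpace ℂ (Fin d), star a.ofLp ⬝ᵥ b.ofLp = inner ℂ a b := by
    intro a b
    rw [EuclideanSpace.inner_eq_star_dotProduct, dotProduct_comm]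
  have hunit : ∀ a : EuclideanSpace ℂ (Fin d), ‖a‖ = 1 → star a.ofLp ⬝ᵥ a.ofLp = 1 := by
    intro a ha
    rw [hin, inner_self_eq_norm_sq_to_K, ha]; simp
  have hforce : 2 ≤ N → d ^ 2 + 1 < N + d → c = 1 / Real.sqrt ((d : ℝ) + 1) := by
    intro hN hbig
    have hc0 : 0 ≤ c := by
      have h1 := hv2 ⟨0, by omega⟩ ⟨1, by omega⟩ (by
        intro h
        exact absurd (congrArg Fin.val h) (by norm_num))
      rw [← h1]
      exact norm_nonneg _
    have h1 := Pool.Agent.Lib.MP_d0f9e0_co.Gap.angle_forced (n := Fin d)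
      (fun i => (v i).ofLp) d (Fintype.card_fin d) (fun i => hunit _ (hv1 i)) (c ^ 2)
      (sq_nonneg c) (by nlinarith) (fun i j hij => by rw [hin, hv2 i j hij])
      (by rw [Fintype.card_fin]; exact hN) (by rw [Fintype.card_fin]; exact hbig)
    have hs : 0 < Real.sqrt ((d : ℝ) + 1) := Real.sqrt_pos.mpr (by positivity)
    have hs2 : Real.sqrt ((d : ℝ) + 1) ^ 2 = d + 1 := Real.sq_sqrt (by positivity)
    have h2 : (c * Real.sqrt ((d : ℝ) + 1)) ^ 2 = 1 ^ 2 := by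
      rw [mul_pow, hs2, h1, one_pow]
    have h3 : c * Real.sqrt ((d : ℝ) + 1) = 1 :=
      (pow_left_inj₀ (mul_nonneg hc0 hs.le) zero_le_one two_ne_zero).mp h2
    rw [eq_div_iff hs.ne']
    exact h3
  refine ⟨?_, ?_, ?_⟩
  · intro hNbig hor
    have hdR : (1 : ℝ) ≤ d := by exact_mod_cast hd
    have hsq : Real.sqrt ((d : ℝ) + 1) ^ 2 = d + 1 := Real.sq_sqrt (by positivity)
    have hexp : (Real.sqrt ((d : ℝ) + 1) - 1) ^ 2 = d + 2 - 2 * Real.sqrt ((d : ℝ) + 1) := by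
      linear_combination hsq
    have ha1 : 1 ≤ Real.sqrt ((d : ℝ) + 1) := Real.one_le_sqrt.mpr (by linarith)
    have hceq : c = maxAngle d := by
      rcases hor with h | h2
      · exact h
      · have hdR2 : (2 : ℝ) ≤ d := by exact_mod_cast h2
        have ha : 3 / 2 ≤ Real.sqrt ((d : ℝ) + 1) := by
          apply Real.le_sqrt_of_sq_le
          linarith
        have h3 : (d : ℝ) ^ 2 + 1 < N + d := by linarith
        have h4 : d ^ 2 + 1 < N + d := by exact_mod_cast h3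
        have h5 : 2 * d ≤ d ^ 2 := by
          rw [sq]; exact Nat.mul_le_mul_right d h2
        exact hforce (by omega) h4
    have hv2' : ∀ i j, i ≠ j → ‖inner ℂ (v i) (v j)‖ = 1 / Real.sqrt ((d : ℝ) + 1) :=
      fun i j hij => by rw [hv2 i j hij, hceq]; rfl
    have hlt : d ^ 2 < N + d := by
      have h3 : (d : ℝ) ^ 2 < N + d := by linarith
      exact_mod_cast h3
    refine ⟨hceq, ?_⟩
    obtain ⟨w, f, hw1, hw2, hw3⟩ :=
      Pool.Agent.Lib.MP_d0f9e0_co.K2.gap_completion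
        Pool.Agent.Lib.MP_d0f9e0_co.K2.k2Real d N hd hNbig v hv1 hv2'
    refine ⟨w, f, ⟨⟨hw1, hw2⟩, hw3⟩, ?_⟩
    intro u hu1 hu2
    exact Pool.Agent.Lib.MP_d0f9e0_co.Gap.Lin.unique_missing d N hd v w f hw1 hw2 hw3 hlt u hu1 hu2
  · intro hceq
    have hv2' : ∀ i j, i ≠ j → ‖inner ℂ (v i) (v j)‖ = 1 / Real.sqrt ((d : ℝ) + 1) :=
      fun i j hij => by rw [hv2 i j hij, hceq]; rfl
    refine ⟨Pool.Agent.Lib.MP_d0f9e0_co.Gap.defect_rank_le d N hd v hv1 hv2', fun hdef => ?_,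
      fun k hk => ?_,
      fun hNbig => Pool.Agent.Lib.MP_d0f9e0_co.Gap.rank_eq_of_few d N hd hNbig v hv1 hv2', ?_, ?_⟩
    · obtain ⟨w, f, hw1, hw2, hw3⟩ :=
        Pool.Agent.Lib.MP_d0f9e0_co.K2.defect_completion
          Pool.Agent.Lib.MP_d0f9e0_co.K2.k2Real d N hd v hv1 hv2' hdef
      exact ⟨w, f, ⟨hw1, hw2⟩, hw3⟩
    · obtain ⟨w, hw1, hw2, hw3⟩ := Pool.Agent.Lib.MP_d0f9e0_co.Gap.Lin.extend_lrank d hd k N
        (N + k) rfl v (by unfold defectRank at hk; unfold Pool.Agent.Lib.MP_d0f9e0_co.Gap.defect; omega)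
        hv1 hv2'
      exact ⟨w, ⟨hw1, hw2⟩, hw3⟩
    · refine (Pool.Agent.Lib.MP_d0f9e0_co.Gap.rank_criterion d N hd v hv1 hv2').trans ?_
      constructor
      · rintro ⟨w, f, hw1, hw2, hw3, hw4⟩
        exact ⟨w, f, ⟨⟨hw1, hw2⟩, hw3⟩, hw4⟩
      · rintro ⟨w, f, ⟨⟨hw1, hw2⟩, hw3⟩, hw4⟩
        exact ⟨w, f, hw1, hw2, hw3, hw4⟩
    · rintro w f ⟨⟨hw1, hw2⟩, hw3⟩ (hlt | hw4) u hu1 hu2
      · exact Pool.Agent.Lib.MP_d0f9e0_co.Gap.Lin.unique_missing d N hd v w f hw1 hw2 hw3 hlt u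
          hu1 hu2
      · exact Pool.Agent.Lib.MP_d0f9e0_co.Gap.unique_of_indepCompl d N hd v w f hw1 hw2 hw3 hw4 u
          hu1 hu2
  · intro hN hne
    by_contra hcon
    push Not at hcon
    exact hne (hforce hN hcon)


/-- The gap: the maximal number of equiangular lines of `ℂ^d` is `d²` or at most
`d² - (√(d+1) - 1)² = d² - d - 2 + 2√(d+1)`. Let `v` be `N` unit vectors in `ℂ^d` whose inner
products for distinct indices all have the same modulus `c < 1`, and let `r` be the rank of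
`d - ∑ v_i v_i^*`.
(a) If `N > d² - (√(d+1) - 1)²`, and if `c = 1/√(d+1)` or `d ≥ 2`, then `c = 1/√(d+1)`, the
family extends to a maximal ETF of `ℂ^d`, and the added lines are determined by the family.
(b) If `c = 1/√(d+1)` then `δ = d² - N - r ≥ 0`; the family extends to a maximal ETF if
`δ < (√(d+1) - 1) (√(d+1) - 2) / 2`, and to `d² - 4δ` vectors at this angle in general;
if `N > d² - 1 - √(d+1)` then `δ = 0`; and `δ = 0` if and only if `v` is a maximal ETF of `ℂ^d`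
from which linearly independent members were removed.
If `v` is a maximal ETF from which fewer than `d`, or linearly independent, members were removed,
then the removed lines are determined by `v`.
(c) If `N ≥ 2` and `c ≠ 1/√(d+1)` then `N ≤ d² - d + 1`; if `d - 1` is a prime power then
`d² - d + 1` is the largest number of equiangular lines of `ℂ^d` with `c ≠ 1/√(d+1)`. -/
theorem result : (∀ (d N : ℕ) (c : ℝ) (v : Fin N → EuclideanSpace ℂ (Fin d)),
    1 ≤ d → c < 1 → Equi d c v →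
    ((d : ℝ) ^ 2 - (Real.sqrt ((d : ℝ) + 1) - 1) ^ 2 < N → (c = maxAngle d ∨ 2 ≤ d) →
      c = maxAngle d ∧ ∃ w f, Completes d N v w f ∧ Determined d N v w f) ∧
    (c = maxAngle d →
      N + defectRank d N v ≤ d ^ 2 ∧
      ((d : ℝ) ^ 2 - N - defectRank d N v <
        (Real.sqrt ((d : ℝ) + 1) - 1) * (Real.sqrt ((d : ℝ) + 1) - 2) / 2 →
        ∃ w f, Completes d N v w f) ∧
      (∀ k : ℕ, N + k + 3 * d ^ 2 ≤ 4 * (N + defectRank d N v) → Extends d N k v) ∧
      ((d : ℝ) ^ 2 - 1 - Real.sqrt ((d : ℝ) + 1) < N → N + defectRank d N v = d ^ 2) ∧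
      (N + defectRank d N v = d ^ 2 ↔ ∃ w f, Completes d N v w f ∧
        LinearIndependent ℂ (fun j : {j // j ∉ Set.range f} => w j)) ∧
      ∀ w f, Completes d N v w f →
        (d ^ 2 < N + d ∨ LinearIndependent ℂ (fun j : {j // j ∉ Set.range f} => w j)) →
        Determined d N v w f) ∧
    (2 ≤ N → c ≠ maxAngle d → N + d ≤ d ^ 2 + 1)) ∧
    ∀ d : ℕ, IsPrimePow (d - 1) → IsGreatest {N : ℕ | OtherAngle d N} (d ^ 2 - d + 1) := by
  have hmain := main
  refine ⟨hmain, fun d hd => ?_⟩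
  have hd3 : 3 ≤ d := by
    have := hd.two_le
    omega
  have hdd : d ≤ d ^ 2 := Nat.le_self_pow two_ne_zero d
  constructor
  · obtain ⟨x, hx1, hx2⟩ := Pool.Agent.Lib.MP_d0f9e0_co.Gap.exists_other hd
    have hdR : (3 : ℝ) ≤ d := by exact_mod_cast hd3
    have hs : 0 < Real.sqrt ((d : ℝ) + 1) := Real.sqrt_pos.mpr (by positivity)
    have hs2 : Real.sqrt ((d : ℝ) + 1) ^ 2 = d + 1 := Real.sq_sqrt (by positivity)
    have ht2 : Real.sqrt ((d : ℝ) - 1) ^ 2 = d - 1 := Real.sq_sqrt (by linarith)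
    have ht0 : 0 ≤ Real.sqrt ((d : ℝ) - 1) := Real.sqrt_nonneg _
    refine ⟨Real.sqrt ((d : ℝ) - 1) / d, x, ?_, ?_, hx1, hx2⟩
    · rw [div_lt_one (by linarith)]
      nlinarith
    · intro h
      unfold maxAngle at h
      rw [div_eq_div_iff (by linarith) hs.ne'] at h
      have h1 : (Real.sqrt ((d : ℝ) - 1) * Real.sqrt ((d : ℝ) + 1)) ^ 2 = (1 * (d : ℝ)) ^ 2 := by
        rw [h]
      rw [mul_pow, hs2, ht2] at h1
      nlinarith
  · rintro N ⟨c, v, hc, hne, hv⟩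
    rcases Nat.lt_or_ge N 2 with hN | hN
    · have : d < d ^ 2 := by nlinarith
      omega
    · have := (hmain d N c v (by omega) hc hv).2.2 hN hne
      omega

end Pool.Agent.Results.MP_d0f9e0_co.AngleGap
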