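import Mathlib
import Pool.Agent.Lib.MP_d0f9e0_co.Arith.BqF

set_option autoImplicit false

open Pool.Agent.Lib.MP_d0f9e0_co

namespace Pool.Agent.Results.MP_d0f9e0_co.DegreeFour

theorem result (d : ℕ) (hd : 3 ≤ d) (x : Fin (d ^ 2) → (Fin d → ℂ)) (hx : IsMaximalETF d x)
    (K : Subfield ℂ) [NumberField K] (hconj : ∀ z ∈ K, star z ∈ K)
    (hK : ∀ i j k, ip (x i) (x j) * ip (x j) (x k) * ip (x k) (x i) ∈ K)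
    (h4 : ¬ 4 ∣ Module.finrank ℚ K) :
    (d % 8 = 0 ∧ IsSquare (d + 1)) ∨
    (d % 8 = 1 ∧ ∃ y s : ℕ, d = y ^ 2 ∧ s ∣ y ∧ s % 8 = 7 ∧
      ∃ u v : ℚ, (d : ℚ) + 1 = u ^ 2 + s * v ^ 2) ∨
    (d % 8 = 3 ∧ ∃ a b : ℤ, (d : ℤ) = a ^ 2 + 2 * b ^ 2) ∨
    (d % 8 = 7 ∧ ∃ a b : ℤ, (d : ℤ) = 2 * a ^ 2 - b ^ 2) :=
  Arith.degree_etf' d hd x hx K hconj hK h4

end Pool.Agent.Results.MP_d0f9e0_co.DegreeFour
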