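import Pool.Agent.Lib.MP_d0f9e0_co.Rg.SmallZ

/-!
# The structure of all maximal equiangular tight frames, in every dimension
-/

set_option autoImplicit false

namespace Pool.Agent.Results.MP_d0f9e0_co.Rigid

open Pool.Agent

/-- The standard Hermitian inner product of `ℂ^d`, linear in the first argument. -/
noncomputable def ip {d : ℕ} (u v : Fin d → ℂ) : ℂ := ∑ k, u k * star (v k)

/-- A maximal equiangular tight frame: `d^2` unit vectors of `ℂ^d` whose pairwise inner products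
have modulus `1/√(d+1)`. -/
def IsMaximalETF (d : ℕ) (x : Fin (d ^ 2) → (Fin d → ℂ)) : Prop :=
  (∀ i, ip (x i) (x i) = 1) ∧ ∀ i j, i ≠ j → ‖ip (x i) (x j)‖ = 1 / Real.sqrt ((d : ℝ) + 1)

/-- The vectors `cos t x_i + sin t z_i`. -/
noncomputable def rot {d : ℕ} (x z : Fin (d ^ 2) → (Fin d → ℂ)) (t : ℝ) (i : Fin (d ^ 2)) :
    Fin d → ℂ :=
  (Real.cos t : ℂ) • x i + (Real.sin t : ℂ) • z i

/-- The inner products of the vectors `rot x z t i` are those of the `x i` times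
`exp(2 i t q)` with integers `q` equal to `0`, `1` or `-1`; in every row exactly `d(d+1)/4` of
them are `1` and exactly `d(d+1)/4` are `-1`. -/
def IsCircle (d : ℕ) (x z : Fin (d ^ 2) → (Fin d → ℂ)) : Prop :=
  ∃ q : Fin (d ^ 2) → Fin (d ^ 2) → ℤ, (∀ i k, q i k = 0 ∨ q i k = 1 ∨ q i k = -1) ∧
    (∀ i, 4 * (Finset.univ.filter fun k => q i k = 1).card = d * (d + 1) ∧
      4 * (Finset.univ.filter fun k => q i k = -1).card = d * (d + 1)) ∧
    ∀ (t : ℝ) (i k : Fin (d ^ 2)),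
      ip (rot x z t i) (rot x z t k) =
        Complex.exp (2 * t * (q i k : ℂ) * Complex.I) * ip (x i) (x k)

/-- In every dimension `d` there is a finite set `F` of pairs with algebraic coordinates, each
pair `(x, z)` a maximal equiangular tight frame `x` (with `z = 0`) or a circle
`cos t x + sin t z` of them, such that every maximal equiangular tight frame of `ℂ^d` is the image
of one of these under a unitary matrix and phases.  There are no circles if `d = 1, 2` mod `4`, if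
`d = 3` mod `4` is not `3` or `63` mod `64`, and if `d = 4` or `d = 8`. -/
theorem result (d : ℕ) :
    ∃ F : Set ((Fin (d ^ 2) → Fin d → ℂ) × (Fin (d ^ 2) → Fin d → ℂ)), F.Finite ∧
      (∀ p ∈ F, IsMaximalETF d p.1 ∧
        (∀ i a, IsAlgebraic ℚ (p.1 i a) ∧ IsAlgebraic ℚ (p.2 i a)) ∧
        (p.2 = 0 ∨ IsCircle d p.1 p.2)) ∧
      (d % 4 = 1 ∨ d % 4 = 2 ∨ (d % 4 = 3 ∧ d % 64 ≠ 3 ∧ d % 64 ≠ 63) ∨
          d = 4 ∨ d = 8 →
        ∀ p ∈ F, p.2 = 0) ∧
      ∀ y : Fin (d ^ 2) → Fin d → ℂ, IsMaximalETF d y →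
        ∃ p ∈ F, ∃ t : ℝ, (p.2 = 0 → t = 0) ∧ ∃ U ∈ Matrix.unitaryGroup (Fin d) ℂ, ∀ i,
          ∃ c : ℂ, ‖c‖ = 1 ∧ y i = c • U.mulVec (rot p.1 p.2 t i) := by
  obtain ⟨F, h1, h2, h3, h4⟩ := SicRg.structure_all d
  exact ⟨F, h1, h2, fun h => h3 (SicRg.zeroD_good8 h), h4⟩

end Pool.Agent.Results.MP_d0f9e0_co.Rigid
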