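import Mathlib
import Pool.Agent.Lib.MP_d0f9e0_co.FN.Cov
import Pool.Agent.Lib.MP_d0f9e0_co.GH.Main
import Pool.Agent.Lib.MP_d0f9e0_co.AN45.OneA2
import Pool.Agent.Lib.MP_d0f9e0_co.PH.Quad13c

set_option autoImplicit false

/-!
# Weyl and Heisenberg covariant maximal equiangular tight frames in every dimension
-/

namespace Pool.Agent.Results.MP_d0f9e0_co.WHCovariant

/-- The shift `X` of `ℂ ^ d`: `X e_j = e_(j + 1)`, indices modulo `d`. -/
noncomputable def shift (d : ℕ) [NeZero d] : Matrix (ZMod d) (ZMod d) ℂ :=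
  Matrix.of fun i j => if i = j + 1 then 1 else 0

/-- The clock `Z` of `ℂ ^ d`: `Z e_j = exp (2 π i / d) ^ j e_j`. -/
noncomputable def clock (d : ℕ) [NeZero d] : Matrix (ZMod d) (ZMod d) ℂ :=
  Matrix.diagonal fun j => Complex.exp (2 * Real.pi * Complex.I / d) ^ j.val

/-- The displacement `D_(a, b) = X ^ a * Z ^ b`, as a linear map of `ℂ ^ d`, `0 ≤ a, b < d`. -/
noncomputable def displace {d : ℕ} [NeZero d] (k : Fin d × Fin d) :
    EuclideanSpace ℂ (ZMod d) →ₗ[ℂ] EuclideanSpace ℂ (ZMod d) :=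
  Matrix.toEuclideanLin (shift d ^ (k.1 : ℕ) * clock d ^ (k.2 : ℕ))

/-- **For every `d ≥ 1` there is a vector of `ℂ ^ d` whose `d ^ 2` displacements form a maximal
equiangular tight frame.** -/
theorem result (d : ℕ) [NeZero d] :
    ∃ ψ : EuclideanSpace ℂ (ZMod d),
      (∀ k : Fin d × Fin d, ‖displace k ψ‖ = 1) ∧
      ∀ k l : Fin d × Fin d, k ≠ l →
        ‖inner ℂ (displace k ψ) (displace l ψ)‖ = 1 / Real.sqrt ((d : ℝ) + 1) := by
  have hNG : Pool.MP_d0f9e0_co.GH.AllNG Pool.MP_d0f9e0_co.SH.Sr :=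
    Pool.Agent.Lib.MP_d0f9e0_co.AN.allNG_of_one Pool.MP_d0f9e0_co.SH.ds_Sr
      Pool.Agent.MP_d0f9e0_co.AN45.oneA2
      fun _ _ _ _ _ _ _ hθ hA h1 hLat hL _ hx _ hy =>
        Pool.MP_d0f9e0_co.PH.zquad hθ hA h1 hLat hL hx hy
  exact (Pool.MP_d0f9e0_co.GH.hasFid_all Pool.MP_d0f9e0_co.SH.ds_Sr hNG d).orbit

end Pool.Agent.Results.MP_d0f9e0_co.WHCovariant
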